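import Pool.Agent.Helper21.W4.St2

/-!
# Wilf in embedding dimension four, module Fa: counting the corners of a face of type 3
-/

set_option autoImplicit false

namespace Pool.Agent.Helper84.W4

open Pool.Agent.Helper21.W4 Finset

theorem Fa_split (C : Finset ℕ) (P Q R : ℕ → Prop) [DecidablePred P] [DecidablePred Q]
    [DecidablePred R] (h : ∀ l ∈ C, R l ↔ P l ∨ Q l) (hd : ∀ l ∈ C, ¬ (P l ∧ Q l)) :
    (C.filter R).card = (C.filter P).card + (C.filter Q).card := by
  rw [← Finset.card_union_of_disjoint]
  · congr 1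
    ext l
    simp only [Finset.mem_filter, Finset.mem_union]
    constructor
    · rintro ⟨h1, h2⟩
      rcases (h l h1).1 h2 with h3 | h3
      · exact Or.inl ⟨h1, h3⟩
      · exact Or.inr ⟨h1, h3⟩
    · rintro (⟨h1, h2⟩ | ⟨h1, h2⟩)
      · exact ⟨h1, (h l h1).2 (Or.inl h2)⟩
      · exact ⟨h1, (h l h1).2 (Or.inr h2)⟩
  · rw [Finset.disjoint_left]
    intro l h1 h2
    rw [Finset.mem_filter] at h1 h2
    exact hd l h1.1 ⟨h1.2, h2.2⟩

theorem Fa_mem {B : ℕ} {s : ℕ → ℕ} {l : ℕ} :
    l ∈ cor B s ↔ l < B ∧ 1 ≤ l ∧ 2 ≤ s l ∧ s (l + 1) < s l := by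
  unfold cor
  rw [Finset.mem_filter, Finset.mem_range]

theorem Fa_anti {B : ℕ} {s : ℕ → ℕ} (hs : Sq B s) : Antitone s := antitone_nat_of_succ_le hs.anti

theorem Fa_exists {B : ℕ} {s : ℕ → ℕ} (hs : Sq B s) {a : ℕ} (ha : 1 ≤ a) (h2 : 2 ≤ s a) :
    ∃ l ∈ cor B s, a ≤ l := by
  by_contra hcon
  push Not at hcon
  have key : ∀ k, s (a + k) = s a := by
    intro k
    induction k with
    | zero => rfl
    | succ k ih =>
      have h3 := hs.anti (a + k)
      have h4 : ¬ s (a + k + 1) < s (a + k) := by
        intro h5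
        have h6 : a + k < B := by
          by_contra h7
          have := hs.fin (a + k) (by omega)
          omega
        have h7 := hcon (a + k) (Fa_mem.2 ⟨h6, by omega, by omega, h5⟩)
        omega
      have h8 : a + (k + 1) = a + k + 1 := by omega
      rw [h8]
      omega
  have h3 := key B
  have h4 := hs.fin (a + B) (by omega)
  omega

theorem Fa_card {B : ℕ} {s : ℕ → ℕ} (hs : Sq B s) (S : Finset ℕ) (M : ℕ)
    (hS : ∀ l ∈ S, l ∈ cor B s ∧ s l - 1 ≤ M) : S.card ≤ M := by
  have h1 : S.card ≤ (Finset.Icc 1 M).card := by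
    refine Finset.card_le_card_of_injOn (fun l => s l - 1) ?_ ?_
    · intro l hl
      have hl' := hS l (Finset.mem_coe.1 hl)
      have h2 := Fa_mem.1 hl'.1
      have h3 := hl'.2
      rw [Finset.mem_coe, Finset.mem_Icc]
      show 1 ≤ s l - 1 ∧ s l - 1 ≤ M
      omega
    · intro l hl l' hl' heq
      have h2 := Fa_mem.1 (hS l (Finset.mem_coe.1 hl)).1
      have h3 := Fa_mem.1 (hS l' (Finset.mem_coe.1 hl')).1
      have heq' : s l - 1 = s l' - 1 := heq
      rcases lt_trichotomy l l' with h4 | h4 | h4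
      · have h5 := Fa_anti hs (show l + 1 ≤ l' from h4)
        omega
      · exact h4
      · have h5 := Fa_anti hs (show l' + 1 ≤ l from h4)
        omega
  rw [Nat.card_Icc] at h1
  omega

theorem hFa : StFa := by
  intro B s t h u hs _ _ hh hsh
  have hC : (cor B s).card = ((cor B s).filter (fun l => h ≤ l)).card +
      ((cor B s).filter (fun l => l < h)).card := by
    have h1 := Fa_split (cor B s) (fun l => h ≤ l) (fun l => l < h) (fun _ => True)
      (fun l _ => by
        constructor
        · intro _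
          exact le_or_gt h l
        · intro _
          trivial)
      (fun l _ h2 => absurd h2.2 (not_lt.2 h2.1))
    rw [Finset.filter_true_of_mem (fun _ _ => trivial)] at h1
    exact h1
  have hY : ((cor B s).filter (fun l => u < s l - 1)).card =
      ((cor B s).filter (fun l => h ≤ l ∧ u < s l - 1)).card +
      ((cor B s).filter (fun l => l < h ∧ u < s l - 1)).card :=
    Fa_split (cor B s) _ _ _ (fun l _ => by omega) (fun l _ => by omega)
  have hdd : dd B s (h - 1) = ((cor B s).filter (fun l => h ≤ l)).card := by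
    unfold dd
    congr 1
    apply Finset.filter_congr
    intro l _
    omega
  have hkk : kk B s (h - 1) u = ((cor B s).filter (fun l => h ≤ l)).card +
      ((cor B s).filter (fun l => l < h ∧ u < s l - 1)).card := by
    unfold kk
    exact Fa_split (cor B s) _ _ _ (fun l _ => by omega) (fun l _ => by omega)
  refine ⟨hC, hY, hdd, hkk, ?_, ?_, ?_, ?_, ?_, ?_⟩
  · obtain ⟨l, hl1, hl2⟩ := Fa_exists hs (by omega : 1 ≤ h) hsh
    exact Finset.card_pos.2 ⟨l, Finset.mem_filter.2 ⟨hl1, hl2⟩⟩
  · apply Finset.card_le_card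
    intro l hl
    rw [Finset.mem_filter] at hl ⊢
    exact ⟨hl.1, hl.2.1⟩
  · apply Finset.card_le_card
    intro l hl
    rw [Finset.mem_filter] at hl ⊢
    exact ⟨hl.1, hl.2.1⟩
  · intro hy
    obtain ⟨l, hl⟩ := Finset.card_pos.1 hy
    rw [Finset.mem_filter] at hl
    have h1 := Fa_anti hs hl.2.1
    have h2 := hl.2.2
    refine ⟨by omega, ?_⟩
    congr 1
    apply Finset.filter_congr
    intro l' _
    constructor
    · intro h3
      have h4 := Fa_anti hs h3.le
      exact ⟨h3, by omega⟩
    · exact fun h3 => h3.1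
  · have h1 := Fa_split (cor B s) (fun l => u < s l - 1) (fun l => s l - 1 ≤ u) (fun _ => True)
      (fun l _ => by
        constructor
        · intro _
          exact lt_or_ge u (s l - 1)
        · intro _
          trivial)
      (fun l _ h2 => absurd h2.1 (not_lt.2 h2.2))
    rw [Finset.filter_true_of_mem (fun _ _ => trivial)] at h1
    have h2 := Fa_card hs ((cor B s).filter (fun l => s l - 1 ≤ u)) u (fun l hl => by
      rw [Finset.mem_filter] at hl
      exact hl)
    omega
  · exact Fa_card hs _ _ (fun l hl => by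
      rw [Finset.mem_filter] at hl
      have := Fa_anti hs hl.2
      exact ⟨hl.1, by omega⟩)

end Pool.Agent.Helper84.W4
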